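import Pool.Agent.ISB.StmtsC

/-! Squad ISB, row STB. -/

set_option autoImplicit false

namespace Pool.Agent.ISB.H10

open scoped Classical commutatorElement
open Pool.Agent.ISB

theorem stb (h1 : StaStmt) : StbStmt := by
  intro G Ω _ _ _ r P κ ω hr hodd hP hrot t htr hcomm hfix N hN hNP k y hy
  have hPn := hrot.nrm
  obtain ⟨k₀, -, hk⟩ := h1 G Ω r P κ ω hr hodd hP hrot t htr hfix N hN hNP
  have hsh : ∀ j i : ℕ, κ ^ j • ω i = ω (i + j) := by
    intro j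
    induction j with
    | zero => intro i; rw [pow_zero, one_smul, Nat.add_zero]
    | succ j ih =>
      intro i
      rw [pow_succ, mul_smul, hrot.sh, ih]
      congr 1
      omega
  have hper : ∀ m i : ℕ, ω (i + r * m) = ω i := by
    intro m
    induction m with
    | zero => intro i; rw [Nat.mul_zero, Nat.add_zero]
    | succ m ih =>
      intro i
      rw [Nat.mul_succ, ← Nat.add_assoc, hrot.per, ih]
  obtain ⟨j, hj⟩ : ∃ j : ℕ, k₀ + j = k + r * k₀ := by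
    refine ⟨k + r * k₀ - k₀, ?_⟩
    have h2 : k₀ ≤ r * k₀ := Nat.le_mul_of_pos_left k₀ hr.pos
    omega
  have hω : κ ^ j • ω k₀ = ω k := by
    rw [hsh, hj, hper]
  have hy' : (κ ^ j)⁻¹ * y * κ ^ j ∈ N := by
    have h2 := hN.conj_mem y hy (κ ^ j)⁻¹
    rwa [inv_inv] at h2
  obtain ⟨m', hm', he⟩ := hk _ hy'
  have hc : t * κ ^ j = κ ^ j * t := (hcomm.pow_right j).eq
  refine ⟨κ ^ j * m' * (κ ^ j)⁻¹, ?_, ?_⟩
  · have hn : (⁅N, P⁆ : Subgroup G).Normal := Subgroup.commutator_normal N P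
    exact hn.conj_mem m' hm' (κ ^ j)
  · have e1 : y⁻¹ * (t * y * t⁻¹) * κ ^ j =
        κ ^ j * (((κ ^ j)⁻¹ * y * κ ^ j)⁻¹ * (t * ((κ ^ j)⁻¹ * y * κ ^ j) * t⁻¹)) := by
      have h3 : t⁻¹ * κ ^ j = κ ^ j * t⁻¹ := by
        rw [inv_mul_eq_iff_eq_mul, ← mul_assoc, hc, mul_assoc, mul_inv_cancel, mul_one]
      have h4 : κ ^ j * t * (κ ^ j)⁻¹ = t := by
        rw [← hc, mul_assoc, mul_inv_cancel, mul_one]
      calc y⁻¹ * (t * y * t⁻¹) * κ ^ j = y⁻¹ * t * y * (t⁻¹ * κ ^ j) := by group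
        _ = y⁻¹ * t * y * (κ ^ j * t⁻¹) := by rw [h3]
        _ = y⁻¹ * (κ ^ j * t * (κ ^ j)⁻¹) * y * (κ ^ j * t⁻¹) := by rw [h4]
        _ = _ := by group
    rw [← hω, ← mul_smul, e1, mul_smul, he, ← mul_smul, ← mul_smul]
    congr 1
    group

end Pool.Agent.ISB.H10
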